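import Pool.Agent.H87.RS.Fin

/-!
# Regular proper models of abelian covers of projective spaces branched along hyperplanes
-/

set_option autoImplicit false
open AlgebraicGeometry CategoryTheory

namespace Pool.Agent.Results.MP_4d1008_ag.ArrangementCovers

/-- Every integral scheme of finite type over `Spec ℤ` whose function field is `K` has the function
field of an integral scheme which is proper over `Spec ℤ` and all of whose local rings are regular
(Krull dimension equals cotangent space dimension). -/
def HasRegularProperModels (K : Type) [CommRing K] : Prop :=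
  ∀ (X : Scheme.{0}) (_ : IsIntegral X) (f : X ⟶ Spec (CommRingCat.of ℤ)),
    LocallyOfFiniteType f → QuasiCompact f → Nonempty (X.functionField ≃+* K) →
    ∃ (X' : Scheme.{0}) (_ : IsIntegral X') (g : X' ⟶ Spec (CommRingCat.of ℤ)),
      IsProper g ∧
      (∀ x : X',
        (((Module.finrank (IsLocalRing.ResidueField (X'.presheaf.stalk x))
            (IsLocalRing.CotangentSpace (X'.presheaf.stalk x)) : ℕ∞)) : WithBot ℕ∞)
          = ringKrullDim (X'.presheaf.stalk x)) ∧
      Nonempty (X'.functionField ≃+* X.functionField)

/-- `F` is the function field of a regular projective surface over `k`: its transcendence degree is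
`2`, and there are nonzero elements `x 0, …, x N` of `F` such that all the rings
`k[x 0 / x i, …, x N / x i]` (the coordinate rings of the standard affine open subsets of the closed
subvariety of `ℙ ^ N` with generic point `(x 0 : … : x N)`) are regular with field of fractions
`F`. -/
def RegularProjectiveSurface {k K : Type} [Field k] [Field K] [Algebra k K]
    (F : IntermediateField k K) : Prop :=
  Algebra.trdeg k F = 2 ∧ ∃ (N : ℕ) (x : Fin (N + 1) → F), (∀ i, x i ≠ 0) ∧ ∀ i,
    IsRegularRing (Algebra.adjoin k (Set.range fun j => x j / x i)) ∧
    IsFractionRing (Algebra.adjoin k (Set.range fun j => x j / x i)) F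

/-- `F` is the function field of a curve over `k` (a finitely generated extension of transcendence
degree `1`), or a field of rational functions in two variables over `k` (generated by two elements
and of transcendence degree `2`), or the function field of a regular projective surface over `k`. -/
def CurveOrSurface {k K : Type} [Field k] [Field K] [Algebra k K] (F : IntermediateField k K) :
    Prop :=
  (F.FG ∧ Algebra.trdeg k F = 1) ∨
    ((∃ x y : K, F = IntermediateField.adjoin k {x, y}) ∧ Algebra.trdeg k F = 2) ∨
    RegularProjectiveSurface F

/-- The value `c 0 + ∑ i, c (i + 1) * x i` at `x` of the polynomial of degree at most `1` over `F`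
with the coefficients `c`. -/
noncomputable def linearValue {k K : Type} [Field k] [Field K] [Algebra k K]
    {F : IntermediateField k K} {n : ℕ} (x : Fin n → K) (c : Fin (n + 1) → F) : K :=
  (c 0 : K) + ∑ i : Fin n, (c i.succ : K) * x i

/-- Let `k` be a finite field of characteristic `p`, let `K` be a field over `k`, and let `F ⊆ K` be
the function field of a curve or of a regular projective surface over `k`. Let `x 1, …, x n ∈ K` be
algebraically independent over `F`, and let `l 1, …, l m` be nonzero polynomials of degree at most
`1` in `x 1, …, x n` over `F`. Suppose that `K` is generated over `F` by the `x i` and by elements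
`w 1, …, w r` with `w b ^ N b = ∏ j, l j ^ a b j`, where the `a b j` are integers and `p` does not
divide `N b`. Then for all `s ≥ 0` every integral scheme of finite type over `Spec ℤ` whose function
field is the field of rational functions in `s` variables over `K` has a regular proper model over
`Spec ℤ`. -/
theorem result :
    ∀ (p : ℕ), p.Prime → ∀ (k : Type) [Field k] [Finite k] [CharP k p] (K : Type) [Field K]
      [Algebra k K] (F : IntermediateField k K), CurveOrSurface F →
      ∀ (n m r : ℕ) (x : Fin n → K), AlgebraicIndependent F x →
      ∀ l : Fin m → Fin (n + 1) → F, (∀ j, l j ≠ 0) →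
      ∀ (w : Fin r → K) (N : Fin r → ℕ) (a : Fin r → Fin m → ℤ), (∀ b, ¬ p ∣ N b) →
      (∀ b, w b ^ N b = ∏ j, linearValue x (l j) ^ a b j) →
      F ⊔ IntermediateField.adjoin k (Set.range x ∪ Set.range w) = ⊤ →
      ∀ s : ℕ, HasRegularProperModels (FractionRing (MvPolynomial (Fin s) K)) := by
  intro p hp k _ _ _ K _ _ F hF n m r x hx l hl w N a hN hw hgen s X hX g _ _ ⟨e⟩
  have : Fact p.Prime := ⟨hp⟩
  have h1 : Pool.Agent.H19.OG.HasCharts K := by
    refine Pool.Agent.H87.RS.hasCharts_arr p k K F ?_ x hx l hl w N a hN hw hgen
    rcases hF with h1 | ⟨⟨x, y, h1⟩, h2⟩ | ⟨h1, h2⟩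
    · exact Or.inl h1
    · refine Or.inr ⟨?_, h2⟩
      rw [h1] at h2 ⊢
      exact Pool.Agent.H96.T.ss_rat h2
    · exact Or.inr ⟨Pool.Agent.H96.T.ss_reg h1 h2, h1⟩
  have h2 : Pool.Agent.H19.OG.FracCharts (MvPolynomial (Fin s) K) :=
    (Pool.Agent.H96.W.fracCharts_field h1).mvPolynomial s
  exact (Pool.Agent.H96.Diag.hasCharts_of_fracCharts h2 e).exists_model

end Pool.Agent.Results.MP_4d1008_ag.ArrangementCovers
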