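import Pool.Agent.H96.X.Fin

/-!
# Regular proper models of covers of products of curves and surfaces
-/

set_option autoImplicit false
open AlgebraicGeometry CategoryTheory

namespace Pool.Agent.Results.MP_4d1008_ag.CoversOfProducts

/-- Every integral scheme of finite type over `Spec ℤ` whose function field is `K` has the function
field of an integral scheme which is proper over `Spec ℤ` and all of whose local rings are regular
(Krull dimension equals cotangent space dimension). -/
def HasRegularProperModels (K : Type) [CommRing K] : Prop :=
  ∀ (X : Scheme.{0}) (_ : IsIntegral X) (f : X ⟶ Spec (CommRingCat.of ℤ)),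
    LocallyOfFiniteType f → QuasiCompact f → Nonempty (X.functionField ≃+* K) →
    ∃ (X' : Scheme.{0}) (_ : IsIntegral X') (g : X' ⟶ Spec (CommRingCat.of ℤ)),
      IsProper g ∧
      (∀ x : X',
        (((Module.finrank (IsLocalRing.ResidueField (X'.presheaf.stalk x))
            (IsLocalRing.CotangentSpace (X'.presheaf.stalk x)) : ℕ∞)) : WithBot ℕ∞)
          = ringKrullDim (X'.presheaf.stalk x)) ∧
      Nonempty (X'.functionField ≃+* X.functionField)

/-- `F` is the function field of a regular projective surface over `k`: its transcendence degree is
`2`, and there are nonzero elements `x 0, …, x N` of `F` such that all the rings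
`k[x 0 / x i, …, x N / x i]` (the coordinate rings of the standard affine open subsets of the closed
subvariety of `ℙ ^ N` with generic point `(x 0 : … : x N)`) are regular with field of fractions
`F`. -/
def RegularProjectiveSurface {k K : Type} [Field k] [Field K] [Algebra k K]
    (F : IntermediateField k K) : Prop :=
  Algebra.trdeg k F = 2 ∧ ∃ (N : ℕ) (x : Fin (N + 1) → F), (∀ i, x i ≠ 0) ∧ ∀ i,
    IsRegularRing (Algebra.adjoin k (Set.range fun j => x j / x i)) ∧
    IsFractionRing (Algebra.adjoin k (Set.range fun j => x j / x i)) F

/-- `F` is the function field of a curve over `k` (a finitely generated extension of transcendence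
degree `1`), or a field of rational functions in two variables over `k` (generated by two elements
and of transcendence degree `2`), or the function field of a regular projective surface over `k`. -/
def CurveOrSurface {k K : Type} [Field k] [Field K] [Algebra k K] (F : IntermediateField k K) :
    Prop :=
  (F.FG ∧ Algebra.trdeg k F = 1) ∨
    ((∃ x y : K, F = IntermediateField.adjoin k {x, y}) ∧ Algebra.trdeg k F = 2) ∨
    RegularProjectiveSurface F

/-- Let `k` be a finite field of characteristic `p`, let `K` be a field over `k`, and let
`F 1, …, F n ⊆ K` be independent (the transcendence degree of `K` over `k` is the sum of those of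
the `F i`), each of them the function field of a curve or of a regular projective surface over `k`.
Suppose that `K` is generated over `k` by the `F i`, by an element `z` with
`z ^ p - ε * z = ∑ i, f i`, where `ε` is `0` or `1` and `f i ∈ F i`, and by elements `w b` with
`w b ^ N b = ∏ i, h i b`, where `p` does not divide `N b` and `h i b ∈ F i` is not zero. Then for all `s ≥ 0` every integral
scheme of finite type over `Spec ℤ` whose function field is the field of rational functions in `s`
variables over `K` has a regular proper model over `Spec ℤ`. -/
theorem result :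
    ∀ (p : ℕ), p.Prime → ∀ (k : Type) [Field k] [Finite k] [CharP k p] (K : Type) [Field K]
      [Algebra k K] (n r : ℕ) (F : Fin n → IntermediateField k K),
      (∀ i, CurveOrSurface (F i)) → Algebra.trdeg k K = ∑ i, Algebra.trdeg k (F i) →
      ∀ (ε : k) (f : ∀ i, F i) (h : ∀ i, Fin r → F i) (z : K) (w : Fin r → K) (N : Fin r → ℕ),
      (ε = 0 ∨ ε = 1) →
      z ^ p - algebraMap k K ε * z = ∑ i, (f i : K) →
      (∀ i b, h i b ≠ 0) → (∀ b, ¬ p ∣ N b) → (∀ b, w b ^ N b = ∏ i, (h i b : K)) →
      (⨆ i, F i) ⊔ IntermediateField.adjoin k (insert z (Set.range w)) = ⊤ →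
      ∀ s : ℕ, HasRegularProperModels (FractionRing (MvPolynomial (Fin s) K)) := by
  intro p hp k _ _ _ K _ _ n r F hF htr ε f h z w N hε hz hh hN hw hgen s X hX g _ _ ⟨e⟩
  have : Fact p.Prime := ⟨hp⟩
  have h1 : Pool.Agent.H19.OG.HasCharts K := by
    have hS : ∀ i, Pool.Agent.H96.X.Fac p (F i) := by
      intro i
      rcases hF i with h1 | ⟨⟨x, y, h1⟩, h2⟩ | ⟨h1, h2⟩
      · exact Or.inl h1
      · refine Or.inr ⟨?_, h2⟩
        rw [h1] at h2 ⊢
        exact Pool.Agent.H96.T.ss_rat h2
      · exact Or.inr ⟨Pool.Agent.H96.T.ss_reg h1 h2, h1⟩
    rcases hε with rfl | rfl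
    · refine Pool.Agent.H96.X.hasCharts_surf p k K n r false F f hS htr h z w N ?_ hh hN hw hgen
      rw [map_zero, zero_mul] at hz
      exact hz
    · refine Pool.Agent.H96.X.hasCharts_surf p k K n r true F f hS htr h z w N ?_ hh hN hw hgen
      rw [map_one, one_mul] at hz
      exact hz
  have h2 : Pool.Agent.H19.OG.FracCharts (MvPolynomial (Fin s) K) :=
    (Pool.Agent.H96.W.fracCharts_field h1).mvPolynomial s
  exact (Pool.Agent.H96.Diag.hasCharts_of_fracCharts h2 e).exists_model

end Pool.Agent.Results.MP_4d1008_ag.CoversOfProducts
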