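import Pool.Agent.H96.ZP.Few

/-!
# Regular proper models of complete intersections with few monomials
-/

set_option autoImplicit false
open AlgebraicGeometry CategoryTheory

namespace Pool.Agent.Results.MP_4d1008_ag.HypergeometricFamilies

/-- Every integral scheme of finite type over `Spec ℤ` whose function field is `K` has the function
field of an integral scheme which is proper over `Spec ℤ` and all of whose local rings are regular
(Krull dimension equals cotangent space dimension). -/
def HasRegularProperModels (K : Type) [CommRing K] : Prop :=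
  ∀ (X : Scheme.{0}) (_ : IsIntegral X) (f : X ⟶ Spec (CommRingCat.of ℤ)),
    LocallyOfFiniteType f → QuasiCompact f → Nonempty (X.functionField ≃+* K) →
    ∃ (X' : Scheme.{0}) (_ : IsIntegral X') (g : X' ⟶ Spec (CommRingCat.of ℤ)),
      IsProper g ∧
      (∀ x : X',
        (((Module.finrank (IsLocalRing.ResidueField (X'.presheaf.stalk x))
            (IsLocalRing.CotangentSpace (X'.presheaf.stalk x)) : ℕ∞)) : WithBot ℕ∞)
          = ringKrullDim (X'.presheaf.stalk x)) ∧
      Nonempty (X'.functionField ≃+* X.functionField)

/-- `F` is the function field of a regular projective surface over `k`: its transcendence degree is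
`2`, and there are nonzero elements `x 0, …, x N` of `F` such that all the rings
`k[x 0 / x i, …, x N / x i]` (the coordinate rings of the standard affine open subsets of the closed
subvariety of `ℙ ^ N` with generic point `(x 0 : … : x N)`) are regular with field of fractions
`F`. -/
def RegularProjectiveSurface {k K : Type} [Field k] [Field K] [Algebra k K]
    (F : IntermediateField k K) : Prop :=
  Algebra.trdeg k F = 2 ∧ ∃ (N : ℕ) (x : Fin (N + 1) → F), (∀ i, x i ≠ 0) ∧ ∀ i,
    IsRegularRing (Algebra.adjoin k (Set.range fun j => x j / x i)) ∧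
    IsFractionRing (Algebra.adjoin k (Set.range fun j => x j / x i)) F

/-- `F` is `k`, or the function field of a curve over `k` (a finitely generated extension of
transcendence degree `1`), or a field of rational functions in two variables over `k` (generated by
two elements and of transcendence degree `2`), or the function field of a regular projective surface
over `k`. -/
def PointCurveOrSurface {k K : Type} [Field k] [Field K] [Algebra k K]
    (F : IntermediateField k K) : Prop :=
  F = ⊥ ∨ (F.FG ∧ Algebra.trdeg k F = 1) ∨
    ((∃ x y : K, F = IntermediateField.adjoin k {x, y}) ∧ Algebra.trdeg k F = 2) ∨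
    RegularProjectiveSurface F

/-- Let `k` be a finite field of characteristic `p`, let `K` be a field over `k`, and let
`F 1, …, F n ⊆ K` each be `k`, or the function field of a curve or of a regular projective surface
over `k`. For every `b` (a block) let `z b 0, …, z b (r b)` be nonzero elements of `K` with sum `0`,
where `r b ≥ 2`. For every `g` let the `lam g b i` be integers, not all of them `0` and each of them
`0` or prime to `p`, such that `∑ i, lam g b i = 0` for all `b` and that the product of the
`z b i ^ lam g b i` is in the factor `F (φ g)`; suppose that every block occurs in at most one of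
these products. Suppose that `K` is generated over `k` by the `F i`, by the quotients
`z b i / z b j` and by elements `w j` with `w j ^ e j = (∏ i, h i j) * ∏ b, ∏ i, z b i ^ a j b i`,
where `p` does not divide `e j`, `h i j ∈ F i` is not zero and `∑ i, a j b i = 0` for all `b`, and
that there are no further relations: the transcendence degree of `K` over `k` is the sum of those of
the `F i` and of the `r b - 1`, minus the number `G` of the `g`. Then for all `s ≥ 0` every integral
scheme of finite type over `Spec ℤ` whose function field is the field of rational functions in `s`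
variables over `K` has a regular proper model over `Spec ℤ`. -/
theorem result :
    ∀ (p : ℕ), p.Prime → ∀ (k : Type) [Field k] [Finite k] [CharP k p] (K : Type) [Field K]
      [Algebra k K] (n : ℕ) (F : Fin n → IntermediateField k K), (∀ i, PointCurveOrSurface (F i)) →
      ∀ (B G : ℕ) (r : Fin B → ℕ) (φ : Fin G → Fin n) (z : ∀ b, Fin (r b + 1) → K)
        (lam : Fin G → ∀ b, Fin (r b + 1) → ℤ),
      (∀ b, 2 ≤ r b) → (∀ b i, z b i ≠ 0) → (∀ b, ∑ i, z b i = 0) →
      (∀ g, lam g ≠ 0) → (∀ g b i, lam g b i = 0 ∨ ¬ (p : ℤ) ∣ lam g b i) →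
      (∀ g b, ∑ i, lam g b i = 0) → (∀ g, ∏ b, ∏ i, z b i ^ lam g b i ∈ F (φ g)) →
      (∀ b g g', lam g b ≠ 0 → lam g' b ≠ 0 → g = g') →
      ∀ (N : ℕ) (w : Fin N → K) (e : Fin N → ℕ) (h : ∀ i, Fin N → F i)
        (a : Fin N → ∀ b, Fin (r b + 1) → ℤ),
      (∀ j, ¬ p ∣ e j) → (∀ i j, h i j ≠ 0) → (∀ j b, ∑ i, a j b i = 0) →
      (∀ j, w j ^ e j = (∏ i, (h i j : K)) * ∏ b, ∏ i, z b i ^ a j b i) →
      (⨆ i, F i) ⊔ IntermediateField.adjoin k
        ({x | ∃ b i j, x = z b i / z b j} ∪ Set.range w) = ⊤ →
      Algebra.trdeg k K + (G : Cardinal) =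
        ∑ i, Algebra.trdeg k (F i) + ((∑ b, (r b - 1) : ℕ) : Cardinal) →
      ∀ s : ℕ, HasRegularProperModels (FractionRing (MvPolynomial (Fin s) K)) := by
  intro p hp k _ _ _ K _ _ n F hF B G r φ z lam hr hz0 hzs hn hlp hls hc hu N w e h a he hh has hw
    hgen htr s X hX g _ _ ⟨ee⟩
  have : Fact p.Prime := ⟨hp⟩
  have h1 : Pool.Agent.H19.OG.HasCharts K := by
    refine Pool.Agent.H96.ZP.hasCharts_few p k K F (fun i => ?_) r hr φ z lam hz0 hzs hc hls hlp hu
      hn w e h a he hh has hw hgen (by rw [Fintype.card_fin]; exact htr.ge)
    rcases hF i with h0 | h1 | ⟨⟨x, y, h1⟩, h2⟩ | ⟨h1, h2⟩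
    · exact Or.inl h0
    · exact Or.inr (Or.inl h1)
    · refine Or.inr (Or.inr ⟨?_, h2⟩)
      rw [h1] at h2 ⊢
      exact Pool.Agent.H96.T.ss_rat h2
    · exact Or.inr (Or.inr ⟨Pool.Agent.H96.T.ss_reg h1 h2, h1⟩)
  have h2 : Pool.Agent.H19.OG.FracCharts (MvPolynomial (Fin s) K) :=
    (Pool.Agent.H96.W.fracCharts_field h1).mvPolynomial s
  exact (Pool.Agent.H96.Diag.hasCharts_of_fracCharts h2 ee).exists_model

end Pool.Agent.Results.MP_4d1008_ag.HypergeometricFamilies
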