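import Pool.Agent.H41.PP.RealBox
import Pool.Agent.H97.PP.Sieve

/-!
# Regular proper models over the integers for a positive proportion of all hypersurfaces
-/

set_option autoImplicit false
open AlgebraicGeometry CategoryTheory

namespace Pool.Agent.Results.MP_4d1008_ag.PositiveProportion

/-- The exponents of the monomials of degree `d` in `x₀, …, x_n`. -/
abbrev Exponents (n d : ℕ) : Type := ↥(Finset.Nat.antidiagonalTuple (n + 1) d)

/-- The dehomogenization `F(1, t₀, …, t_{n-1})`, as a polynomial over `ℚ`, of the form
`F = ∑ c_β x ^ β` of degree `d` with integer coefficients `c`. -/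
noncomputable def affineEquation {n d : ℕ} (c : Exponents n d → ℤ) : MvPolynomial (Fin n) ℚ :=
  ∑ β, MvPolynomial.C (c β : ℚ) *
    ∏ j, (Fin.cons 1 MvPolynomial.X : Fin (n + 1) → MvPolynomial (Fin n) ℚ) j ^ β.1 j

/-- The field of rational functions in `s` variables over the function field of the hypersurface
`F = 0`: the ring of fractions of `R[u₁, …, u_s]`, where `R = ℚ[t₀, …, t_{n-1}] / (F(1, t))`. -/
abbrev HypersurfaceFunctionField {n d : ℕ} (c : Exponents n d → ℤ) (s : ℕ) : Type :=
  FractionRing (MvPolynomial (Fin s)
    (MvPolynomial (Fin n) ℚ ⧸ Ideal.span {affineEquation c}))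

/-- Every integral scheme of finite type over `Spec ℤ` whose function field is `K` has the function
field of an integral scheme which is proper over `Spec ℤ` and all of whose local rings are regular
(Krull dimension equals cotangent space dimension). -/
def HasRegularProperModels (K : Type) [CommRing K] : Prop :=
  ∀ (X : Scheme.{0}) (_ : IsIntegral X) (f : X ⟶ Spec (CommRingCat.of ℤ)),
    LocallyOfFiniteType f → QuasiCompact f → Nonempty (X.functionField ≃+* K) →
    ∃ (X' : Scheme.{0}) (_ : IsIntegral X') (g : X' ⟶ Spec (CommRingCat.of ℤ)),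
      IsProper g ∧
      (∀ x : X',
        (((Module.finrank (IsLocalRing.ResidueField (X'.presheaf.stalk x))
            (IsLocalRing.CotangentSpace (X'.presheaf.stalk x)) : ℕ∞)) : WithBot ℕ∞)
          = ringKrullDim (X'.presheaf.stalk x)) ∧
      Nonempty (X'.functionField ≃+* X.functionField)

theorem affineEquation_eq {n d : ℕ} (c : Exponents n d → ℤ) :
    affineEquation c = Pool.Agent.H96.Nod.deh (Pool.Agent.H41.PP.form c) := by
  rw [Pool.Agent.H96.Nod.deh, Pool.Agent.H41.PP.form, map_sum, affineEquation]
  refine Finset.sum_congr rfl fun β _ => ?_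
  rw [MvPolynomial.aeval_monomial, Finsupp.prod_fintype _ _ (fun _ => pow_zero _)]
  congr 1

theorem chartSieve {n d : ℕ} (hn : 1 ≤ n) (hd : 2 ≤ d) : Pool.Agent.H41.PP.ChartSieve n d :=
  Pool.Agent.H97.PP.chart_sieve n d hn hd

/-- Let `n, d ≥ 2`. There is `δ > 0` such that for every box `∏ [lo β, hi β]` with non-empty
interior in the real vector space of forms of degree `d` in `n + 1` variables and for all
sufficiently large `H`, at least `δ` times the volume of the dilated box `H ∏ [lo β, hi β]` many
integral forms `F` in the dilated box have the following property: `F(1, t)` is irreducible over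
`ℚ`, and for all `s ≥ 0`, every integral scheme of finite type over `Spec ℤ` whose function field
is the field of rational functions in `s` variables over the function field of the hypersurface
`F = 0` over `ℚ` has a regular proper model over `Spec ℤ`. -/
theorem result :
    ∀ (n d : ℕ), 2 ≤ n → 2 ≤ d →
      ∃ δ : ℝ, 0 < δ ∧ ∀ lo hi : Exponents n d → ℝ, (∀ β, lo β < hi β) →
      ∃ H₀ : ℝ, ∀ H : ℝ, H₀ ≤ H →
        δ * ∏ β, (H * (hi β - lo β)) ≤
          (Nat.card {c : Exponents n d → ℤ //
            (∀ β, H * lo β ≤ c β ∧ (c β : ℝ) ≤ H * hi β) ∧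
            Irreducible (affineEquation c) ∧
            ∀ s : ℕ, HasRegularProperModels (HypersurfaceFunctionField c s)} : ℝ) := by
  intro n d hn hd
  refine Pool.Agent.H41.PP.exists_delta_of hn hd (chartSieve (by omega) hd) fun c hc => ?_
  refine ⟨?_, fun s X hX f _ _ ⟨e⟩ => ?_⟩
  · rw [affineEquation_eq]
    exact hc.1
  · have h1 := hc.fracCharts
    rw [← affineEquation_eq] at h1
    exact (Pool.Agent.H96.Diag.hasCharts_of_fracCharts (h1.mvPolynomial s) e).exists_model

end Pool.Agent.Results.MP_4d1008_ag.PositiveProportion
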